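import Pool.Agent.Q160.WPal4

/-!
MP_0fbb7a_co: if all complete return words of the long palindromic factors are palindromes,
then `T_u(n)` vanishes for all large `n`.
-/

namespace Pool.Agent.Results.MP_0fbb7a_co.EventuallyZero

open Q160.WPal

/-- Let the language of `u` be closed under reversal and contain infinitely many palindromes,
and suppose every complete return word (in the language) of every palindromic factor of length
at least `K` is a palindrome. Then `T_u(n) = 0` for all large `n`. -/
theorem result {A : Type*} [Finite A] (u : ℕ → A) (hclosed : ClosedRev u) (hinf : InfPal u)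
    (K : ℕ)
    (hK : ∀ n w, K ≤ n → w ∈ palN u n →
      ∀ m v, v ∈ facN u m → CompleteReturn w v → v.reverse = v) :
    ∃ N, ∀ n, N ≤ n → T u n = 0 :=
  T_eventually_zero hclosed hinf hK

end Pool.Agent.Results.MP_0fbb7a_co.EventuallyZero
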